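import Pool.Agent.R226.PTD

/-!
# The positive Toeplitz completion class is not stable under matrix amplification
-/

set_option autoImplicit false

open scoped ComplexOrder

namespace Pool.Agent.Results.MP_a15892_an.MatrixAmplificationFails

open Pool.Agent.R226.PTC

/-- The C*-algebra `C(OnePoint ℕ)` of convergent complex sequences belongs to the positive
Toeplitz completion class, and the C*-algebra of `2 × 2` matrices over it does not. -/
theorem result :
    PTClass C(OnePoint ℕ, ℂ) ∧ ¬ PTClass (CStarMatrix (Fin 2) (Fin 2) C(OnePoint ℕ, ℂ)) :=
  ⟨ptClass_CN, not_ptClass_M2⟩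

end Pool.Agent.Results.MP_a15892_an.MatrixAmplificationFails
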